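import Pool.Agent.Helper95.C2.Spec

set_option autoImplicit false

/-!
# C2, part FRB: a square root of the discriminant over `W` of the algebraic closure and the
Frobenius
-/

open Polynomial

namespace Pool.Agent.Helper33.C2.FRB

open Pool.Agent.Helper95.C2

universe u

section general
variable {S : Type u} [CommRing S]

lemma vandermonde_perm {n : ℕ} (v : Fin n → S) (σ : Equiv.Perm (Fin n)) :
    (Matrix.vandermonde (fun i => v (σ i))).det =
      ((Equiv.Perm.sign σ : ℤˣ) : ℤ) * (Matrix.vandermonde v).det := by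
  have h : Matrix.vandermonde (fun i => v (σ i)) = (Matrix.vandermonde v).submatrix σ id := by
    ext i j; simp [Matrix.vandermonde]
  rw [h, Matrix.det_permute]

lemma map_vandermonde {S' : Type u} [CommRing S'] (φ : S →+* S') {n : ℕ} (v : Fin n → S) :
    φ (Matrix.vandermonde v).det = (Matrix.vandermonde (fun i => φ (v i))).det := by
  rw [RingHom.map_det]
  congr 1
  ext i j
  simp [Matrix.vandermonde]

lemma rs_prod [Nontrivial S] {n : ℕ} (a : Fin n → S) (g : S[X]) :
    rs (∏ i, (X - C (a i))) g = ∏ i, eval (a i) g := by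
  unfold rs
  rw [resultant_prod_left Finset.univ (fun i => X - C (a i)) g g.natDegree (by simp) le_rfl]
  refine Finset.prod_congr rfl fun i _ => ?_
  rw [natDegree_X_sub_C, resultant_X_sub_C_left _ _ _ le_rfl]

lemma eval_derivative_prod {n : ℕ} (a : Fin n → S) (i : Fin n) :
    eval (a i) (derivative (∏ j, (X - C (a j)))) = ∏ j ∈ {i}ᶜ, (a i - a j) := by
  have h := Lagrange.eval_nodal_derivative_eval_node_eq (s := (Finset.univ : Finset (Fin n)))
    (v := a) (i := i) (Finset.mem_univ i)
  unfold Lagrange.nodal at h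
  rw [h, eval_prod]
  have h2 : (Finset.univ : Finset (Fin n)).erase i = {i}ᶜ := by
    ext j; simp
  rw [h2]
  simp

lemma sum_card_Ioi (n : ℕ) : ∑ i : Fin n, (Finset.Ioi i).card = n * (n - 1) / 2 := by
  have h1 : ∑ i : Fin n, (Finset.Ioi i).card = ∑ i : Fin n, (i : ℕ) := by
    rw [← Equiv.sum_comp Fin.revPerm]
    refine Finset.sum_congr rfl fun i _ => ?_
    rw [Fin.card_Ioi, Fin.revPerm_apply, Fin.val_rev]
    omega
  rw [h1, ← Finset.sum_range (fun i => i), Finset.sum_range_id]

lemma dsc_prod [Nontrivial S] {n : ℕ} (a : Fin n → S) :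
    dsc (∏ i, (X - C (a i))) = (Matrix.vandermonde a).det ^ 2 := by
  have hdeg : (∏ i, (X - C (a i))).natDegree = n := by
    rw [natDegree_prod_of_monic _ _ (fun i _ => monic_X_sub_C (a i))]
    simp
  unfold dsc
  rw [hdeg, rs_prod]
  simp_rw [eval_derivative_prod]
  rw [← Finset.prod_prod_Ioi_mul_eq_prod_prod_off_diag (fun j i => a i - a j),
    Matrix.det_vandermonde, ← sum_card_Ioi, ← Finset.prod_pow_eq_pow_sum, ← Finset.prod_pow,
    ← Finset.prod_mul_distrib]
  refine Finset.prod_congr rfl fun i _ => ?_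
  rw [← Finset.prod_const, ← Finset.prod_pow, ← Finset.prod_mul_distrib]
  refine Finset.prod_congr rfl fun j _ => ?_
  ring

end general

theorem main (hHEN : S_HEN.{u}) (hSGN : S_SGN.{u}) : S_FRB.{u} := by
  classical
  intro K _ _ _ m hm f hf hsq
  set Ω := AlgebraicClosure K with hΩ
  set ψ : WittVector 2 K →+* WittVector 2 Ω := WittVector.map (algebraMap K Ω) with hψ
  set F : (WittVector 2 Ω)[X] := f.map ψ with hF
  have hFm : F.Monic := hf.map ψ
  have hFdeg : F.natDegree = f.natDegree := hf.natDegree_map ψ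
  have hcomp : (cc Ω).comp ψ = (algebraMap K Ω).comp (cc K) := by
    ext x
    change (WittVector.map (algebraMap K Ω) x).coeff 0 = _
    rw [WittVector.map_coeff]
    rfl
  have hFbar : F.map (cc Ω) = (f.map (cc K)).map (algebraMap K Ω) := by
    rw [hF, Polynomial.map_map, Polynomial.map_map, hcomp]
  have hsep : (F.map (cc Ω)).Separable := by
    rw [hFbar]
    exact (PerfectField.separable_iff_squarefree.2 hsq).map
  obtain ⟨N, a, hN, ha, hβ⟩ : ∃ (N : ℕ) (a : Fin N → WittVector 2 Ω), N = F.natDegree ∧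
      F = ∏ i, (X - C (a i)) ∧ Function.Injective (fun i => cc Ω (a i)) := by
    obtain ⟨a, ha, hβ⟩ := hHEN Ω F hFm hsep
    exact ⟨F.natDegree, a, rfl, ha, hβ⟩
  -- the Frobenius
  have hΦψ : (Phi Ω m).comp ψ = ψ := by
    ext x n
    change (WittVector.map (iterateFrobenius Ω 2 m)
      (WittVector.map (algebraMap K Ω) x)).coeff n = (WittVector.map (algebraMap K Ω) x).coeff n
    rw [WittVector.map_coeff, WittVector.map_coeff, iterateFrobenius_def, ← map_pow, ← hm,
      FiniteField.pow_card]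
  have hFΦ : F.map (Phi Ω m) = F := by
    rw [hF, Polynomial.map_map, hΦψ]
  have hccΦ : ∀ x, cc Ω (Phi Ω m x) = (cc Ω x) ^ 2 ^ m := by
    intro x
    change (WittVector.map (iterateFrobenius Ω 2 m) x).coeff 0 = _
    rw [WittVector.map_coeff, iterateFrobenius_def]
    rfl
  have hroot : ∀ i, ∃ j, Phi Ω m (a i) = a j := by
    intro i
    have h1 : F.eval (Phi Ω m (a i)) = 0 := by
      conv_lhs => rw [← hFΦ]
      rw [eval_map_apply, ha, eval_prod,
        Finset.prod_eq_zero (Finset.mem_univ i) (by simp), map_zero]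
    rw [ha, eval_prod, Finset.prod_eq_zero_iff] at h1
    obtain ⟨j, -, hj⟩ := h1
    rw [eval_sub, eval_X, eval_C, sub_eq_zero] at hj
    exact ⟨j, hj⟩
  choose s hs using hroot
  have hsinj : Function.Injective s := by
    intro i j hij
    have h1 : Phi Ω m (a i) = Phi Ω m (a j) := by rw [hs, hs, hij]
    have h2 : (cc Ω (a i)) ^ 2 ^ m = (cc Ω (a j)) ^ 2 ^ m := by
      rw [← hccΦ, ← hccΦ, h1]
    have h3 : iterateFrobenius Ω 2 m (cc Ω (a i)) = iterateFrobenius Ω 2 m (cc Ω (a j)) := h2
    exact hβ ((iterateFrobenius Ω 2 m).injective h3)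
  let σ : Equiv.Perm (Fin N) := Equiv.ofBijective s
    (Finite.injective_iff_bijective.1 hsinj)
  have hσ : ∀ i, Phi Ω m (a i) = a (σ i) := hs
  have hsign : ((Equiv.Perm.sign σ : ℤˣ) : ℤ) = (-1) ^ N * lam (f.map (cc K)) := by
    refine hSGN K Ω (f.map (cc K)) N (fun i => cc Ω (a i)) σ (hf.map _) hβ ?_ ?_
    · rw [← hFbar, ha, Polynomial.map_prod]
      simp
    · intro i
      rw [hm, ← hccΦ, hσ]
  refine ⟨(Matrix.vandermonde a).det, ?_, ?_, ?_⟩
  · apply WittVector.isUnit_of_coeff_zero_ne_zero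
    change cc Ω (Matrix.vandermonde a).det ≠ 0
    rw [map_vandermonde, Matrix.det_vandermonde_ne_zero_iff]
    exact hβ
  · rw [← dsc_prod, ← ha, map_dsc ψ hf]
  · rw [map_vandermonde]
    have h7 : (fun i => Phi (AlgebraicClosure K) m (a i)) = fun i => a (σ i) := funext hσ
    rw [h7, vandermonde_perm a σ, hsign, ← hFdeg, ← hN]

end Pool.Agent.Helper33.C2.FRB
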