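import Pool.Agent.Helper95.C2.Spec

set_option autoImplicit false

/-!
# C2, part HEN: Hensel splitting of monic polynomials over `W(Ω)` with separable reduction
-/

open Polynomial

namespace Pool.Agent.Helper33.C2.HEN

open Pool.Agent.Helper95.C2

universe u

theorem main : S_HEN.{u} := by
  classical
  intro Ω _ _ _ f hf hsep
  have hf0 : f ≠ 0 := hf.ne_zero
  set N := f.natDegree with hN
  have hmonic : (f.map (cc Ω)).Monic := hf.map _
  have hdeg : (f.map (cc Ω)).natDegree = N := hf.natDegree_map _
  -- the residues of the roots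
  have hcard : (f.map (cc Ω)).roots.card = N := by
    rw [← hdeg]
    exact (IsAlgClosed.splits (f.map (cc Ω))).natDegree_eq_card_roots.symm
  have hnd : (f.map (cc Ω)).roots.Nodup := nodup_roots hsep
  have hT : (f.map (cc Ω)).roots.toFinset.card = N := by
    rw [Multiset.toFinset_card_of_nodup hnd, hcard]
  let e := (f.map (cc Ω)).roots.toFinset.equivFinOfCardEq hT
  let α : Fin N → Ω := fun i => (e.symm i : Ω)
  have hαinj : Function.Injective α := fun i j hij => e.symm.injective (Subtype.ext hij)
  have hαroot : ∀ i, (f.map (cc Ω)).eval (α i) = 0 := by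
    intro i
    have h1 : (α i) ∈ (f.map (cc Ω)).roots.toFinset := (e.symm i).2
    rw [Multiset.mem_toFinset] at h1
    exact isRoot_of_mem_roots h1
  have : HenselianRing (WittVector 2 Ω) (Ideal.span {((2 : ℕ) : WittVector 2 Ω)}) :=
    IsAdicComplete.henselianRing _ _
  have key : ∀ i, ∃ a : WittVector 2 Ω, f.IsRoot a ∧ cc Ω a = α i := by
    intro i
    obtain ⟨c, hc⟩ := cc_surjective Ω (α i)
    have h1 : cc Ω (f.eval c) = 0 := by
      rw [← eval_map_apply, hc, hαroot i]
    have h2 : cc Ω (f.derivative.eval c) ≠ 0 := by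
      rw [← eval_map_apply, hc, ← derivative_map]
      intro h0
      obtain ⟨u, v, huv⟩ := hsep
      have h3 := congrArg (eval (α i)) huv
      rw [eval_add, eval_mul, eval_mul, h0, hαroot i] at h3
      simp at h3
    have h3 : IsUnit (f.derivative.eval c) := WittVector.isUnit_of_coeff_zero_ne_zero _ h2
    obtain ⟨a, ha, hac⟩ := HenselianRing.is_henselian
      (I := Ideal.span {((2 : ℕ) : WittVector 2 Ω)}) f hf c
      ((WittVector.mem_span_p_iff_coeff_zero_eq_zero (f.eval c)).2 h1) (h3.map _)
    refine ⟨a, ha, ?_⟩
    have h4 := (WittVector.mem_span_p_iff_coeff_zero_eq_zero (a - c)).1 hac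
    have h5 : cc Ω (a - c) = 0 := h4
    rw [map_sub, sub_eq_zero] at h5
    rw [h5, hc]
  choose a ha hac using key
  have hainj' : Function.Injective (fun i => cc Ω (a i)) := by
    intro i j hij
    simp only [hac] at hij
    exact hαinj hij
  have hainj : Function.Injective a := fun i j hij => hainj' (by simp only [hij])
  refine ⟨a, ?_, hainj'⟩
  have hle : Finset.univ.val.map a ≤ f.roots := by
    rw [Multiset.le_iff_subset (Multiset.Nodup.map hainj Finset.univ.nodup)]
    intro x hx
    obtain ⟨i, -, rfl⟩ := Multiset.mem_map.1 hx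
    exact (mem_roots hf0).2 (ha i)
  have heq : Finset.univ.val.map a = f.roots := by
    refine Multiset.eq_of_le_of_card_le hle ?_
    rw [Multiset.card_map]
    have : Multiset.card (Finset.univ : Finset (Fin N)).val = N := by
      simp
    rw [this]
    exact f.card_roots'
  have hroots : f.roots.card = f.natDegree := by
    rw [← heq, Multiset.card_map]
    simp [hN]
  have h6 := prod_multiset_X_sub_C_of_monic_of_roots_card_eq hf hroots
  rw [← heq, Multiset.map_map] at h6
  exact h6.symm

end Pool.Agent.Helper33.C2.HEN
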